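import Pool.Agent.ThX.Main

/-! # The graph automorphisms have no signs -/

namespace ThX

section
variable {K : Type*} [Field K] {n : ℕ} {G : Type*} [Group G]

/-- the exponent of the sign is invariant -/
theorem blX_act (σ : Sym n) (r s : Rt n) : blX (act σ r).1 (act σ s).1 = blX r.1 s.1 := by
  change ∑ i, r.1 (σ.1.symm i) * s.1 (σ.1.symm i) + ∑ i, ∑ j, (if Arrow i j then r.1 (σ.1.symm i) * s.1 (σ.1.symm j) else 0) = _
  rw [← Equiv.sum_comp σ.1, ← Equiv.sum_comp σ.1 (fun i => ∑ j, if Arrow i j then r.1 (σ.1.symm i) * s.1 (σ.1.symm j) else 0)]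
  have h1 : ∀ i, (∑ j, if Arrow (σ.1 i) j then r.1 (σ.1.symm (σ.1 i)) * s.1 (σ.1.symm j) else 0) = ∑ j, if Arrow i j then r.1 i * s.1 j else 0 := by
    intro i
    rw [← Equiv.sum_comp σ.1]
    refine Finset.sum_congr rfl fun j _ => ?_
    rw [Equiv.symm_apply_apply, Equiv.symm_apply_apply]
    exact if_congr (σ.2 i j) rfl rfl
  rw [Finset.sum_congr rfl fun i _ => h1 i]
  simp only [Equiv.symm_apply_apply]
  rfl

/-- the inverse -/
def sinv (σ : Sym n) : Sym n := ⟨σ.1.symm, fun i j => by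
  rw [← σ.2 (σ.1.symm i) (σ.1.symm j), Equiv.apply_symm_apply, Equiv.apply_symm_apply]⟩

theorem act_sinv (σ : Sym n) (r : Rt n) : act σ (act (sinv σ) r) = r := Subtype.ext (by
  ext i
  change r.1 (σ.1 (σ.1.symm i)) = r.1 i
  rw [Equiv.apply_symm_apply])

theorem act_inj (σ : Sym n) {r s : Rt n} (h : act σ r = act σ s) : r = s := Subtype.ext (by
  ext i
  have h1 := congrFun (congrArg Subtype.val h) (σ.1 i)
  change r.1 (σ.1.symm (σ.1 i)) = s.1 (σ.1.symm (σ.1 i)) at h1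
  rw [Equiv.symm_apply_apply] at h1
  exact h1)

theorem act_ng (σ : Sym n) (r : Rt n) : act σ (ng r) = ng (act σ r) := rfl

theorem act_add (σ : Sym n) {r s t : Rt n} (h : t.1 = r.1 + s.1) : (act σ t).1 = (act σ r).1 + (act σ s).1 := by
  ext i
  change t.1 (σ.1.symm i) = r.1 (σ.1.symm i) + s.1 (σ.1.symm i)
  rw [h]
  rfl

/-- the twisted system satisfies the same relations -/
theorem stX_tw {y : Rt n → K → G} (hy : StX K n y) (σ : Sym n) (τ : K →+* K) (hs : ∀ b : K, ∃ a, τ a = b) : StX K n (fun r a => y (act σ r) (τ a)) := by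
  have hn : ∀ (r : Rt n) (a : K), nX (fun r a => y (act σ r) (τ a)) r a = nX y (act σ r) (τ a) := fun r a => by
    unfold nX
    beta_reduce
    rw [act_ng, map_inv₀]
  have hh : ∀ (r : Rt n) (a : K), hX (fun r a => y (act σ r) (τ a)) r a = hX y (act σ r) (τ a) := fun r a => by
    unfold hX
    rw [hn, hn, map_neg, map_one]
  have he : ∀ r s : Rt n, τ (epX K r.1 s.1) = epX K (act σ r).1 (act σ s).1 := fun r s => by
    have h1 : (epX K r.1 s.1 : K) = sgn K (blX r.1 s.1) := rfl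
    have h2 : (epX K (act σ r).1 (act σ s).1 : K) = sgn K (blX (act σ r).1 (act σ s).1) := rfl
    rw [h1, h2, blX_act, sgn_map]
  refine ⟨fun r a b => ?_, fun r s t ht a b => ?_, fun r s h0 h a b => ?_, fun r a b ha hb => ?_, ?_⟩
  · rw [map_add]
    exact hy.add _ _ _
  · rw [map_mul, map_mul, he]
    exact hy.sum _ _ _ (act_add σ ht) _ _
  · refine hy.comm _ _ (fun h1 => h0 ?_) (fun t h1 => h (act (sinv σ) t) ?_) _ _
    · ext i
      have h2 := congrFun h1 (σ.1 i)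
      change r.1 (σ.1.symm (σ.1 i)) + s.1 (σ.1.symm (σ.1 i)) = 0 at h2
      rw [Equiv.symm_apply_apply] at h2
      exact h2
    · ext i
      change t.1 (σ.1 i) = r.1 i + s.1 i
      have h2 := congrFun h1 (σ.1 i)
      change t.1 (σ.1 i) = r.1 (σ.1.symm (σ.1 i)) + s.1 (σ.1.symm (σ.1 i)) at h2
      rw [Equiv.symm_apply_apply] at h2
      exact h2
  · rw [hh, hh, hh, map_mul]
    exact hy.tor _ _ _ ((map_ne_zero τ).2 ha) ((map_ne_zero τ).2 hb)
  · rw [eq_top_iff, ← hy.gen]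
    apply Subgroup.closure_mono
    rintro _ ⟨r, b, rfl⟩
    obtain ⟨a, ha⟩ := hs b
    exact ⟨act (sinv σ) r, a, by rw [act_sinv, ha]⟩

/-- iterates -/
theorem act_order (σ : Sym n) (r : Rt n) : (act σ)^[orderOf σ.1] r = r := by
  have h1 : ∀ k : ℕ, ((act σ)^[k] r).1 = fun i => r.1 ((σ.1 ^ k).symm i) := by
    intro k
    induction k with
    | zero => rfl
    | succ k ih =>
      rw [Function.iterate_succ_apply']
      change (fun i => ((act σ)^[k] r).1 (σ.1.symm i)) = _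
      rw [ih]
      ext i
      change r.1 ((σ.1 ^ k).symm (σ.1.symm i)) = r.1 ((σ.1 ^ (k + 1)).symm i)
      rw [pow_succ']
      rfl
  apply Subtype.ext
  rw [h1, pow_orderOf_eq_one]
  rfl

/-- the elements of the orbits are fixed by `x_r(a) ↦ x_(σ r)(τ a)` -/
theorem fix_orb (hn : n = 4 ∨ n = 6 ∨ n = 7 ∨ n = 8) (σ : Sym n) (h4 : n = 4 → orderOf σ.1 = 3) {y : Rt n → K → G} (hy : StX K n y) (τ : K →+* K) {φ : G →* G} (hφ : ∀ r a, φ (y r a) = y (act σ r) (τ a))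
    (r : Rt n) (a : K) (ha : τ^[Function.minimalPeriod (act σ) r] a = a) : φ (orb y σ τ r a) = orb y σ τ r a := by
  have hone : act σ r = r → φ (orb y σ τ r a) = orb y σ τ r a := by
    intro h1
    obtain ⟨p1, p2⟩ := orb_one y σ τ h1 a
    rw [p1] at ha
    have h2 : τ a = a := ha
    rw [p2, hφ, h1, h2]
  by_cases hf : act σ r = r
  · exact hone hf
  rcases hn with rfl | rfl | hn
  · have key : ∃ r' : ThT.Root, t4 r' = r ∧ ((act σ r = t4 (ThT.sr r') ∧ act σ (act σ r) = t4 (ThT.sr (ThT.sr r'))) ∨ (act σ r = t4 (ThT.sr (ThT.sr r')) ∧ act σ (act σ r) = t4 (ThT.sr r'))) := by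
      refine ⟨u4 r, t4_u4 r, ?_⟩
      rcases sym4 σ (h4 rfl) with hs | hs
      · left
        have h1 := act4 hs (u4 r)
        rw [t4_u4] at h1
        rw [h1, act4 hs]
        exact ⟨rfl, rfl⟩
      · right
        have h1 := act4' hs (u4 r)
        rw [t4_u4] at h1
        rw [h1, act4' hs, ThT.sr_sr_sr]
        exact ⟨rfl, rfl⟩
    obtain ⟨r', rfl, hr⟩ := key
    have h3 : act σ (act σ (act σ (t4 r'))) = t4 r' := by
      have h5 := act_order σ (t4 r')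
      rw [h4 rfl] at h5
      exact h5
    obtain ⟨p1, p2⟩ := orb_three y σ τ hf h3 a
    rw [p1] at ha
    have h2 : τ (τ (τ a)) = a := ha
    have hm : ThT.sr r' ≠ r' := by
      intro h5
      rcases hr with ⟨h6, -⟩ | ⟨h6, -⟩
      · exact hf (by rw [h6, h5])
      · exact hf (by rw [h6, h5, h5])
    obtain ⟨b1, b2, b3⟩ := ThT.bf_sr_sr hm
    have hS := stb4 hy
    have c1 : ∀ u v : K, y (t4 r') u * y (t4 (ThT.sr r')) v = y (t4 (ThT.sr r')) v * y (t4 r') u := fun u v => hS.commute b1.ge u v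
    have c2 : ∀ u v : K, y (t4 r') u * y (t4 (ThT.sr (ThT.sr r'))) v = y (t4 (ThT.sr (ThT.sr r'))) v * y (t4 r') u := fun u v => hS.commute b2.ge u v
    rw [p2, map_mul, map_mul, hφ, hφ, hφ, h3, h2]
    rcases hr with ⟨h6, h7⟩ | ⟨h6, h7⟩
    · rw [h7, h6, mul_assoc, ← c2, ← mul_assoc, ← c1]
    · rw [h7, h6, mul_assoc, ← c1, ← mul_assoc, ← c2]
  · rcases sym6 σ with h1 | h1
    · exact absurd (act_one h1 r) hf
    · have h3 : act σ (act σ r) = r := by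
        have h5 := act_order σ r
        rw [order6 h1] at h5
        exact h5
      obtain ⟨p1, p2⟩ := orb_two y σ τ hf h3 a
      rw [p1] at ha
      have h2 : τ (τ a) = a := ha
      have h6 : (⟨f6 (g6 r.1), hf6 ⟨g6 r.1, hg6 r⟩⟩ : Rt 6) = r := Subtype.ext (fg6 r.1)
      have h7 : (⟨f6 (Pool.Agent.ThF.sr ⟨g6 r.1, hg6 r⟩).1, hf6 (Pool.Agent.ThF.sr ⟨g6 r.1, hg6 r⟩)⟩ : Rt 6) = act σ r := Subtype.ext (by
        rw [act6 h1]
        change f6 (Pool.Agent.ThF.sr ⟨g6 r.1, hg6 r⟩).1 = _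
        rw [f6_sr]
        change fl (f6 (g6 r.1)) = _
        rw [fg6])
      have h8 : Pool.Agent.ThF.sr ⟨g6 r.1, hg6 r⟩ ≠ ⟨g6 r.1, hg6 r⟩ := fun h9 => hf (by
        rw [← h7]
        refine Eq.trans ?_ h6
        apply Subtype.ext
        change f6 (Pool.Agent.ThF.sr ⟨g6 r.1, hg6 r⟩).1 = f6 (g6 r.1)
        rw [h9])
      have h9 : ∀ u v : K, y r u * y (act σ r) v = y (act σ r) v * y r u := by
        intro u v
        have h10 : y ⟨f6 (g6 r.1), hf6 ⟨g6 r.1, hg6 r⟩⟩ (sgn K (C6 (f6 (g6 r.1))) * (sgn K (C6 (f6 (g6 r.1))) * u)) *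
              y ⟨f6 (Pool.Agent.ThF.sr ⟨g6 r.1, hg6 r⟩).1, hf6 (Pool.Agent.ThF.sr ⟨g6 r.1, hg6 r⟩)⟩ (sgn K (C6 (f6 (Pool.Agent.ThF.sr ⟨g6 r.1, hg6 r⟩).1)) * (sgn K (C6 (f6 (Pool.Agent.ThF.sr ⟨g6 r.1, hg6 r⟩).1)) * v)) =
            y ⟨f6 (Pool.Agent.ThF.sr ⟨g6 r.1, hg6 r⟩).1, hf6 (Pool.Agent.ThF.sr ⟨g6 r.1, hg6 r⟩)⟩ (sgn K (C6 (f6 (Pool.Agent.ThF.sr ⟨g6 r.1, hg6 r⟩).1)) * (sgn K (C6 (f6 (Pool.Agent.ThF.sr ⟨g6 r.1, hg6 r⟩).1)) * v)) *
              y ⟨f6 (g6 r.1), hf6 ⟨g6 r.1, hg6 r⟩⟩ (sgn K (C6 (f6 (g6 r.1))) * (sgn K (C6 (f6 (g6 r.1))) * u)) :=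
          (stb6 hy).commute (Pool.Agent.ThF.ag_perp h8).ge (sgn K (C6 (f6 (g6 r.1))) * u) (sgn K (C6 (f6 (Pool.Agent.ThF.sr ⟨g6 r.1, hg6 r⟩).1)) * v)
        have h11 : ∀ (k : ℤ) (u : K), sgn K k * (sgn K k * u) = u := fun k u => by rw [← mul_assoc, sgn_sq, one_mul]
        rw [h11, h11, h6, h7] at h10
        exact h10
      rw [p2, map_mul, hφ, hφ, h3, h2, h9]
  · exact absurd (act_one (sym0 hn σ) r) hf

end

end ThX
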