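import Pool.Agent.ThK.Defs

/-! # The root systems `D_4`, `E_6`, `E_7`, `E_8` as rooted trees

Dynkin diagram `X_n`: nodes `0, …, n - 1`, arrows `0 → 1`, `0 → 2`, `0 → 3`, `2 → 4`, `3 → 5`, `5 → 6`, `6 → 7` (`n = 4`: `D_4`, `n = 6, 7, 8`: `E_n`).  Roots: `v : Fin n → ℤ` with `∑ v_i ^ 2 - ∑_(i → j) v_i v_j = 1`;
signs `(-1) ^ (∑ v_i w_i + ∑_(i → j) v_i w_j)`.
-/

namespace ThX
open ThE ThK

/-- the arrows -/
def Arrow {n : ℕ} (i j : Fin n) : Prop := ((i : ℕ), (j : ℕ)) ∈ [(0, 1), (0, 2), (0, 3), (2, 4), (3, 5), (5, 6), (6, 7)]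

instance {n : ℕ} (i j : Fin n) : Decidable (Arrow i j) := inferInstanceAs (Decidable (_ ∈ _))

/-- the root vectors -/
def IsR {n : ℕ} (v : Fin n → ℤ) : Prop := ∑ i, v i ^ 2 - ∑ i, ∑ j, (if Arrow i j then v i * v j else 0) = 1

/-- the roots -/
abbrev Rt (n : ℕ) : Type := {v : Fin n → ℤ // IsR v}

/-- the negative of a root -/
def ng {n : ℕ} (r : Rt n) : Rt n := ⟨-r.1, by
  have h := r.2
  unfold IsR at h ⊢
  simp only [Pi.neg_apply, neg_sq, neg_mul_neg]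
  exact h⟩

/-- the exponent of the sign -/
def blX {n : ℕ} (v w : Fin n → ℤ) : ℤ := ∑ i, v i * w i + ∑ i, ∑ j, if Arrow i j then v i * w j else 0

/-- the sign -/
def epX (K : Type*) [Field K] {n : ℕ} (v w : Fin n → ℤ) : K := if Even (blX v w) then 1 else -1

section
variable {K : Type*} [Field K] {n : ℕ} {G : Type*} [Group G]

/-- `n_r(a)` -/
def nX (y : Rt n → K → G) (r : Rt n) (a : K) : G := y r a * y (ng r) a⁻¹ * y r a

/-- `h_r(a)` -/
def hX (y : Rt n → K → G) (r : Rt n) (a : K) : G := nX y r a * nX y r (-1)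

variable (K n) in
/-- Steinberg's relations -/
structure StX {G : Type*} [Group G] (y : Rt n → K → G) : Prop where
  add : ∀ r a b, y r (a + b) = y r a * y r b
  sum : ∀ r s t : Rt n, t.1 = r.1 + s.1 → ∀ a b, y r a * y s b * (y r a)⁻¹ * (y s b)⁻¹ = y t (epX K r.1 s.1 * a * b)
  comm : ∀ r s : Rt n, r.1 + s.1 ≠ 0 → (∀ t : Rt n, t.1 ≠ r.1 + s.1) → ∀ a b, y r a * y s b * (y r a)⁻¹ * (y s b)⁻¹ = 1
  tor : ∀ r a b, a ≠ 0 → b ≠ 0 → hX y r (a * b) = hX y r a * hX y r b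
  gen : Subgroup.closure {g | ∃ r a, g = y r a} = ⊤

/-- the sign `(-1) ^ k` -/
def sgn (K : Type*) [Field K] (k : ℤ) : K := if Even k then 1 else -1

theorem sgn_add (k l : ℤ) : sgn K (k + l) = sgn K k * sgn K l := by
  unfold sgn
  by_cases h1 : Even k <;> by_cases h2 : Even l <;> simp [Int.even_add, h1, h2]

theorem sgn_sq (k : ℤ) : sgn K k * sgn K k = 1 := by
  unfold sgn
  by_cases h1 : Even k <;> simp [h1]

theorem sgn_ne (k : ℤ) : sgn K k ≠ 0 := fun h => by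
  have h1 := sgn_sq (K := K) k
  rw [h, mul_zero] at h1
  exact zero_ne_one h1

theorem sgn_cases (k : ℤ) : sgn K k = 1 ∨ sgn K k = -1 := by
  unfold sgn
  by_cases h1 : Even k <;> simp [h1]

theorem sgn_even {k l : ℤ} (h : Even (k - l)) : sgn K k = sgn K l := by
  have h1 : sgn K k = sgn K ((k - l) + l) := by rw [sub_add_cancel]
  rw [h1, sgn_add]
  unfold sgn
  rw [if_pos h, one_mul]

theorem ep_sgn {n : ℕ} (v w : Vec n) : ((ep K v w : Kˣ) : K) = sgn K (bl v w) := by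
  unfold sgn
  change (((-1 : Kˣ) ^ bl v w : Kˣ) : K) = _
  split_ifs with h
  · rw [h.neg_one_zpow]
    rfl
  · rw [Int.not_even_iff_odd] at h
    rw [h.neg_one_zpow]
    rfl

theorem hX_one {y : Rt n → K → G} (hy : StX K n y) (r : Rt n) : hX y r 1 = 1 := by
  have h := hy.tor r 1 1 one_ne_zero one_ne_zero
  rw [mul_one] at h
  exact (left_eq_mul.1 h)

/-- `h` does not change if `a` is replaced by `± a` in all root elements of `± r` -/
theorem hX_sign {y : Rt n → K → G} (hy : StX K n y) (r : Rt n) {c : K} (hc : c = 1 ∨ c = -1) {a : K} (ha : a ≠ 0) :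
    nX y r (c * a) * nX y r (c * (-1)) = hX y r a := by
  rcases hc with rfl | rfl
  · rw [one_mul, one_mul]
    rfl
  · rw [neg_one_mul, neg_one_mul, neg_neg]
    have h1 : nX y r 1 * nX y r (-1) = 1 := hX_one hy r
    have h2 : hX y r (a * (-1)) = hX y r a * hX y r (-1) := hy.tor r a (-1) ha (neg_ne_zero.2 one_ne_zero)
    rw [mul_neg_one] at h2
    have h3 : nX y r (-a) * nX y r (-1) = hX y r a * (nX y r (-1) * nX y r (-1)) := h2
    have h4 : nX y r 1 = (nX y r (-1))⁻¹ := eq_inv_of_mul_eq_one_left h1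
    rw [h4, mul_inv_eq_iff_eq_mul]
    rw [← mul_assoc] at h3
    exact mul_right_cancel h3

/-- TRANSFER from the tree coordinates to `(d; m_1, …, m_n)`. -/
theorem stb_of (f : Vec n →+ (Fin n → ℤ)) (g : (Fin n → ℤ) →+ Vec n) (fg : ∀ v, f (g v) = v) (gf : ∀ r : Root n, g (f r.1) = r.1) (hf : ∀ r : Root n, IsR (f r.1))
    (hg : ∀ r : Rt n, ∑ i, (g r.1).2 i = 3 * (g r.1).1 ∧ ∑ i, (g r.1).2 i ^ 2 = (g r.1).1 ^ 2 + 2) (C : (Fin n → ℤ) → ℤ) (hC : ∀ v w, Even (C (v + w) - C v - C w - (blX v w) - bl (g v) (g w)))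
    (hn : ∀ v, C (-v) = C v) {y : Rt n → K → G} (hy : StX K n y) : Stb K n (fun r a => y ⟨f r.1, hf r⟩ (sgn K (C (f r.1)) * a)) := by
  have hgr : ∀ (r : Root n) (t : Rt n), g t.1 = r.1 → (⟨f r.1, hf r⟩ : Rt n) = t := fun r t h => Subtype.ext (by
    change f r.1 = t.1
    rw [← h, fg])
  have hneg : ∀ r : Root n, (⟨f (-r).1, hf (-r)⟩ : Rt n) = ng ⟨f r.1, hf r⟩ := fun r => Subtype.ext (map_neg f r.1)
  have hcn : ∀ r : Root n, sgn K (C (f (-r).1)) = sgn K (C (f r.1)) := fun r => by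
    have h1 : f (-r).1 = -f r.1 := map_neg f r.1
    rw [h1, hn]
  have hnn : ∀ (r : Root n) (a : K), ThK.nn (fun r a => y ⟨f r.1, hf r⟩ (sgn K (C (f r.1)) * a)) r a = nX y ⟨f r.1, hf r⟩ (sgn K (C (f r.1)) * a) := by
    intro r a
    have h1 : sgn K (C (f r.1)) * a⁻¹ = (sgn K (C (f r.1)) * a)⁻¹ := by
      rw [mul_inv, ← eq_inv_of_mul_eq_one_left (sgn_sq (K := K) (C (f r.1)))]
    change y ⟨f r.1, hf r⟩ (sgn K (C (f r.1)) * a) * y ⟨f (-r).1, hf (-r)⟩ (sgn K (C (f (-r).1)) * a⁻¹) * y ⟨f r.1, hf r⟩ (sgn K (C (f r.1)) * a) = _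
    rw [hcn, hneg, h1]
    rfl
  have hhh : ∀ (r : Root n) (a : K), a ≠ 0 → ThK.hh (fun r a => y ⟨f r.1, hf r⟩ (sgn K (C (f r.1)) * a)) r a = hX y ⟨f r.1, hf r⟩ a := by
    intro r a ha
    unfold ThK.hh
    rw [hnn, hnn]
    exact hX_sign hy _ (sgn_cases _) ha
  refine ⟨fun r a b => ?_, fun r s t ht a b => ?_, fun r s h0 h a b => ?_, fun r a b ha hb => ?_, ?_⟩
  · rw [mul_add, hy.add]
  · have h1 : f t.1 = f r.1 + f s.1 := by rw [ht, map_add]
    rw [hy.sum ⟨f r.1, hf r⟩ ⟨f s.1, hf s⟩ ⟨f t.1, hf t⟩ h1]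
    congr 1
    have h2 := hC (f r.1) (f s.1)
    rw [gf, gf, ← h1] at h2
    have h3 : sgn K (C (f t.1)) * sgn K (bl r.1 s.1) = sgn K (C (f r.1)) * sgn K (C (f s.1)) * sgn K (blX (f r.1) (f s.1)) := by
      rw [← sgn_add, ← sgn_add, ← sgn_add]
      apply sgn_even
      obtain ⟨k, hk⟩ := h2
      exact ⟨k + bl r.1 s.1, by linarith⟩
    have h4 : (ep K r.1 s.1 : K) = sgn K (bl r.1 s.1) := ep_sgn _ _
    have h5 : (epX K (f r.1) (f s.1) : K) = sgn K (blX (f r.1) (f s.1)) := rfl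
    change epX K (f r.1) (f s.1) * (sgn K (C (f r.1)) * a) * (sgn K (C (f s.1)) * b) = sgn K (C (f t.1)) * ((ep K r.1 s.1 : K) * a * b)
    rw [h4, h5]
    linear_combination (-(a * b)) * h3
  · refine hy.comm ⟨f r.1, hf r⟩ ⟨f s.1, hf s⟩ (fun h1 => h0 ?_) (fun t h1 => h ⟨g t.1, hg t⟩ ?_) _ _
    · have h2 : f (r.1 + s.1) = 0 := by
        rw [map_add]
        exact h1
      rw [← gf r, ← gf s, ← map_add, ← map_add, h2, map_zero]
    · change g t.1 = r.1 + s.1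
      rw [h1]
      change g (f r.1 + f s.1) = _
      rw [map_add, gf, gf]
  · rw [hhh r _ (mul_ne_zero ha hb), hhh r a ha, hhh r b hb]
    exact hy.tor _ a b ha hb
  · rw [eq_top_iff, ← hy.gen]
    apply Subgroup.closure_mono
    rintro _ ⟨t, a, rfl⟩
    refine ⟨⟨g t.1, hg t⟩, sgn K (C t.1) * a, ?_⟩
    have h1 : (⟨f (g t.1), hf ⟨g t.1, hg t⟩⟩ : Rt n) = t := Subtype.ext (fg t.1)
    change y t a = y ⟨f (g t.1), _⟩ (sgn K (C (f (g t.1))) * (sgn K (C t.1) * a))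
    rw [h1, fg, ← mul_assoc, sgn_sq, one_mul]

end

end ThX
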