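import Pool.Agent.ThX.Defs

/-! # From the tree coordinates to `(d; m_1, …, m_n)`: `n = 6, 7, 8` -/

namespace ThX
open ThE ThK

theorem arr4 (v w : Fin 4 → ℤ) : (∑ i, ∑ j, if Arrow i j then v i * w j else 0) = v 0 * w 1 + v 0 * w 2 + v 0 * w 3 := by
  simp [Fin.sum_univ_four, Arrow]

theorem arr6 (v w : Fin 6 → ℤ) : (∑ i, ∑ j, if Arrow i j then v i * w j else 0) = v 0 * w 1 + v 0 * w 2 + v 0 * w 3 + v 2 * w 4 + v 3 * w 5 := by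
  simp [Fin.sum_univ_six, Arrow]

theorem arr7 (v w : Fin 7 → ℤ) : (∑ i, ∑ j, if Arrow i j then v i * w j else 0) = v 0 * w 1 + v 0 * w 2 + v 0 * w 3 + v 2 * w 4 + v 3 * w 5 + v 5 * w 6 := by
  simp [Fin.sum_univ_seven, Arrow]

theorem arr8 (v w : Fin 8 → ℤ) : (∑ i, ∑ j, if Arrow i j then v i * w j else 0) = v 0 * w 1 + v 0 * w 2 + v 0 * w 3 + v 2 * w 4 + v 3 * w 5 + v 5 * w 6 + v 6 * w 7 := by
  simp [Fin.sum_univ_eight, Arrow]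

/-- the coordinates `v` of `(d; m)` in the simple roots, `n = 6` -/
def f6 : Vec 6 →+ (Fin 6 → ℤ) where
  toFun v := ![3 * v.1 - v.2 0 - v.2 1 - v.2 2, v.1, 2 * v.1 - v.2 0 - v.2 1, 3 * v.1 - v.2 0 - v.2 1 - v.2 2 - v.2 3, v.1 - v.2 0, 3 * v.1 - v.2 0 - v.2 1 - v.2 2 - v.2 3 - v.2 4]
  map_zero' := by ext i; fin_cases i <;> simp
  map_add' v w := by ext i; fin_cases i <;> simp <;> ring

/-- the vector `(d; m)` with the coordinates `v` in the simple roots, `n = 6` -/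
def g6 : (Fin 6 → ℤ) →+ Vec 6 where
  toFun v := (v 1, ![v 1 - v 4, v 1 + v 4 - v 2, v 1 + v 2 - v 0, v 0 - v 3, v 3 - v 5, v 5])
  map_zero' := by
    refine Prod.ext rfl ?_
    ext i; fin_cases i <;> simp
  map_add' v w := by
    refine Prod.ext rfl ?_
    ext i; fin_cases i <;> simp <;> ring

/-- the quadratic form of the signs, `n = 6` -/
def C6 (v : Fin 6 → ℤ) : ℤ := v 0 * v 1 + v 0 * v 2 + v 1 * v 2 + v 1 * v 4 + v 2 * v 4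

theorem fg6 (v : Fin 6 → ℤ) : f6 (g6 v) = v := by
  ext i
  fin_cases i <;> simp [f6, g6] <;> ring

theorem gf6 (r : Root 6) : g6 (f6 r.1) = r.1 := by
  have h := r.2.1
  simp only [Fin.sum_univ_six] at h
  refine Prod.ext rfl ?_
  ext i
  fin_cases i <;> simp [f6, g6] <;> linarith

theorem isR6 (v : Fin 6 → ℤ) : IsR v ↔ v 0 ^ 2 + v 1 ^ 2 + v 2 ^ 2 + v 3 ^ 2 + v 4 ^ 2 + v 5 ^ 2 - (v 0 * v 1 + v 0 * v 2 + v 0 * v 3 + v 2 * v 4 + v 3 * v 5) = 1 := by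
  unfold IsR
  rw [arr6, Fin.sum_univ_six]

theorem hf6 (r : Root 6) : IsR (f6 r.1) := by
  obtain ⟨h1, h2⟩ := r.2
  rw [isR6]
  simp only [Fin.sum_univ_six] at h1 h2
  simp [f6]
  have h3 : r.1.2 5 = 3 * r.1.1 - r.1.2 0 - r.1.2 1 - r.1.2 2 - r.1.2 3 - r.1.2 4 := by linarith
  rw [h3] at h2
  linarith

theorem hg6 (r : Rt 6) : ∑ i, (g6 r.1).2 i = 3 * (g6 r.1).1 ∧ ∑ i, (g6 r.1).2 i ^ 2 = (g6 r.1).1 ^ 2 + 2 := by
  have h := (isR6 _).1 r.2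
  simp only [Fin.sum_univ_six]
  simp [g6]
  constructor
  · ring
  · linarith

theorem hC6 (v w : Fin 6 → ℤ) : Even (C6 (v + w) - C6 v - C6 w - blX v w - bl (g6 v) (g6 w)) := by
  refine ⟨-(v 0 * w 3) - 2 * (v 1 * w 1) + v 2 * w 1 - v 3 * w 5 + v 4 * w 1, ?_⟩
  unfold C6 blX bl
  rw [arr6]
  simp [Fin.sum_univ_six, g6]
  ring

theorem stb6 {K : Type*} [Field K] {G : Type*} [Group G] {y : Rt 6 → K → G} (hy : StX K 6 y) : Stb K 6 (fun r a => y ⟨f6 r.1, hf6 r⟩ (sgn K (C6 (f6 r.1)) * a)) :=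
  stb_of f6 g6 fg6 gf6 hf6 hg6 C6 hC6 (fun v => by unfold C6; simp) hy

/-- the coordinates `v` of `(d; m)` in the simple roots, `n = 7` -/
def f7 : Vec 7 →+ (Fin 7 → ℤ) where
  toFun v := ![3 * v.1 - v.2 0 - v.2 1 - v.2 2, v.1, 2 * v.1 - v.2 0 - v.2 1, 3 * v.1 - v.2 0 - v.2 1 - v.2 2 - v.2 3, v.1 - v.2 0, 3 * v.1 - v.2 0 - v.2 1 - v.2 2 - v.2 3 - v.2 4, 3 * v.1 - v.2 0 - v.2 1 - v.2 2 - v.2 3 - v.2 4 - v.2 5]
  map_zero' := by ext i; fin_cases i <;> simp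
  map_add' v w := by ext i; fin_cases i <;> simp <;> ring

/-- the vector `(d; m)` with the coordinates `v` in the simple roots, `n = 7` -/
def g7 : (Fin 7 → ℤ) →+ Vec 7 where
  toFun v := (v 1, ![v 1 - v 4, v 1 + v 4 - v 2, v 1 + v 2 - v 0, v 0 - v 3, v 3 - v 5, v 5 - v 6, v 6])
  map_zero' := by
    refine Prod.ext rfl ?_
    ext i; fin_cases i <;> simp
  map_add' v w := by
    refine Prod.ext rfl ?_
    ext i; fin_cases i <;> simp <;> ring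

/-- the quadratic form of the signs, `n = 7` -/
def C7 (v : Fin 7 → ℤ) : ℤ := v 0 * v 1 + v 0 * v 2 + v 1 * v 2 + v 1 * v 4 + v 2 * v 4

theorem fg7 (v : Fin 7 → ℤ) : f7 (g7 v) = v := by
  ext i
  fin_cases i <;> simp [f7, g7] <;> ring

theorem gf7 (r : Root 7) : g7 (f7 r.1) = r.1 := by
  have h := r.2.1
  simp only [Fin.sum_univ_seven] at h
  refine Prod.ext rfl ?_
  ext i
  fin_cases i <;> simp [f7, g7] <;> linarith

theorem isR7 (v : Fin 7 → ℤ) : IsR v ↔ v 0 ^ 2 + v 1 ^ 2 + v 2 ^ 2 + v 3 ^ 2 + v 4 ^ 2 + v 5 ^ 2 + v 6 ^ 2 - (v 0 * v 1 + v 0 * v 2 + v 0 * v 3 + v 2 * v 4 + v 3 * v 5 + v 5 * v 6) = 1 := by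
  unfold IsR
  rw [arr7, Fin.sum_univ_seven]

theorem hf7 (r : Root 7) : IsR (f7 r.1) := by
  obtain ⟨h1, h2⟩ := r.2
  rw [isR7]
  simp only [Fin.sum_univ_seven] at h1 h2
  simp [f7]
  have h3 : r.1.2 6 = 3 * r.1.1 - r.1.2 0 - r.1.2 1 - r.1.2 2 - r.1.2 3 - r.1.2 4 - r.1.2 5 := by linarith
  rw [h3] at h2
  linarith

theorem hg7 (r : Rt 7) : ∑ i, (g7 r.1).2 i = 3 * (g7 r.1).1 ∧ ∑ i, (g7 r.1).2 i ^ 2 = (g7 r.1).1 ^ 2 + 2 := by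
  have h := (isR7 _).1 r.2
  simp only [Fin.sum_univ_seven]
  simp [g7]
  constructor
  · ring
  · linarith

theorem hC7 (v w : Fin 7 → ℤ) : Even (C7 (v + w) - C7 v - C7 w - blX v w - bl (g7 v) (g7 w)) := by
  refine ⟨-(v 0 * w 3) - 2 * (v 1 * w 1) + v 2 * w 1 - v 3 * w 5 + v 4 * w 1 - v 5 * w 6, ?_⟩
  unfold C7 blX bl
  rw [arr7]
  simp [Fin.sum_univ_seven, g7]
  ring

theorem stb7 {K : Type*} [Field K] {G : Type*} [Group G] {y : Rt 7 → K → G} (hy : StX K 7 y) : Stb K 7 (fun r a => y ⟨f7 r.1, hf7 r⟩ (sgn K (C7 (f7 r.1)) * a)) :=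
  stb_of f7 g7 fg7 gf7 hf7 hg7 C7 hC7 (fun v => by unfold C7; simp) hy

/-- the coordinates `v` of `(d; m)` in the simple roots, `n = 8` -/
def f8 : Vec 8 →+ (Fin 8 → ℤ) where
  toFun v := ![3 * v.1 - v.2 0 - v.2 1 - v.2 2, v.1, 2 * v.1 - v.2 0 - v.2 1, 3 * v.1 - v.2 0 - v.2 1 - v.2 2 - v.2 3, v.1 - v.2 0, 3 * v.1 - v.2 0 - v.2 1 - v.2 2 - v.2 3 - v.2 4, 3 * v.1 - v.2 0 - v.2 1 - v.2 2 - v.2 3 - v.2 4 - v.2 5, 3 * v.1 - v.2 0 - v.2 1 - v.2 2 - v.2 3 - v.2 4 - v.2 5 - v.2 6]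
  map_zero' := by ext i; fin_cases i <;> simp
  map_add' v w := by ext i; fin_cases i <;> simp <;> ring

/-- the vector `(d; m)` with the coordinates `v` in the simple roots, `n = 8` -/
def g8 : (Fin 8 → ℤ) →+ Vec 8 where
  toFun v := (v 1, ![v 1 - v 4, v 1 + v 4 - v 2, v 1 + v 2 - v 0, v 0 - v 3, v 3 - v 5, v 5 - v 6, v 6 - v 7, v 7])
  map_zero' := by
    refine Prod.ext rfl ?_
    ext i; fin_cases i <;> simp
  map_add' v w := by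
    refine Prod.ext rfl ?_
    ext i; fin_cases i <;> simp <;> ring

/-- the quadratic form of the signs, `n = 8` -/
def C8 (v : Fin 8 → ℤ) : ℤ := v 0 * v 1 + v 0 * v 2 + v 1 * v 2 + v 1 * v 4 + v 2 * v 4

theorem fg8 (v : Fin 8 → ℤ) : f8 (g8 v) = v := by
  ext i
  fin_cases i <;> simp [f8, g8] <;> ring

theorem gf8 (r : Root 8) : g8 (f8 r.1) = r.1 := by
  have h := r.2.1
  simp only [Fin.sum_univ_eight] at h
  refine Prod.ext rfl ?_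
  ext i
  fin_cases i <;> simp [f8, g8] <;> linarith

theorem isR8 (v : Fin 8 → ℤ) : IsR v ↔ v 0 ^ 2 + v 1 ^ 2 + v 2 ^ 2 + v 3 ^ 2 + v 4 ^ 2 + v 5 ^ 2 + v 6 ^ 2 + v 7 ^ 2 - (v 0 * v 1 + v 0 * v 2 + v 0 * v 3 + v 2 * v 4 + v 3 * v 5 + v 5 * v 6 + v 6 * v 7) = 1 := by
  unfold IsR
  rw [arr8, Fin.sum_univ_eight]

theorem hf8 (r : Root 8) : IsR (f8 r.1) := by
  obtain ⟨h1, h2⟩ := r.2
  rw [isR8]
  simp only [Fin.sum_univ_eight] at h1 h2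
  simp [f8]
  have h3 : r.1.2 7 = 3 * r.1.1 - r.1.2 0 - r.1.2 1 - r.1.2 2 - r.1.2 3 - r.1.2 4 - r.1.2 5 - r.1.2 6 := by linarith
  rw [h3] at h2
  linarith

theorem hg8 (r : Rt 8) : ∑ i, (g8 r.1).2 i = 3 * (g8 r.1).1 ∧ ∑ i, (g8 r.1).2 i ^ 2 = (g8 r.1).1 ^ 2 + 2 := by
  have h := (isR8 _).1 r.2
  simp only [Fin.sum_univ_eight]
  simp [g8]
  constructor
  · ring
  · linarith

theorem hC8 (v w : Fin 8 → ℤ) : Even (C8 (v + w) - C8 v - C8 w - blX v w - bl (g8 v) (g8 w)) := by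
  refine ⟨-(v 0 * w 3) - 2 * (v 1 * w 1) + v 2 * w 1 - v 3 * w 5 + v 4 * w 1 - v 5 * w 6 - v 6 * w 7, ?_⟩
  unfold C8 blX bl
  rw [arr8]
  simp [Fin.sum_univ_eight, g8]
  ring

theorem stb8 {K : Type*} [Field K] {G : Type*} [Group G] {y : Rt 8 → K → G} (hy : StX K 8 y) : Stb K 8 (fun r a => y ⟨f8 r.1, hf8 r⟩ (sgn K (C8 (f8 r.1)) * a)) :=
  stb_of f8 g8 fg8 gf8 hf8 hg8 C8 hC8 (fun v => by unfold C8; simp) hy

end ThX
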