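import Pool.Agent.ThX.Tx
import Pool.Agent.ThT2.Quo

/-! # `n = 4`: `G_2(K)` and `³D_4(K)` -/

namespace ThX

/-- the two automorphisms of order three of the diagram of type `D_4` -/
theorem sym4 (σ : Sym 4) (h : orderOf σ.1 = 3) : (σ.1 0 = 0 ∧ σ.1 1 = 2 ∧ σ.1 2 = 3 ∧ σ.1 3 = 1) ∨ (σ.1 0 = 0 ∧ σ.1 1 = 3 ∧ σ.1 2 = 1 ∧ σ.1 3 = 2) := by
  have h1 : σ.1 ≠ 1 := fun h2 => by
    rw [h2, orderOf_one] at h
    exact absurd h (by decide)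
  have h3 : σ.1 * σ.1 * σ.1 = 1 := by
    have h4 := pow_orderOf_eq_one σ.1
    rw [h, pow_succ, pow_two] at h4
    exact h4
  have key : ∀ σ : Equiv.Perm (Fin 4), (∀ i j, Arrow (σ i) (σ j) ↔ Arrow i j) → σ ≠ 1 → σ * σ * σ = 1 → (σ 0 = 0 ∧ σ 1 = 2 ∧ σ 2 = 3 ∧ σ 3 = 1) ∨ (σ 0 = 0 ∧ σ 1 = 3 ∧ σ 2 = 1 ∧ σ 3 = 2) := by
    decide +kernel
  exact key σ.1 σ.2 h1 h3

/-- the root `(c; m_0, m_1, m_2)` in tree coordinates -/
def t4 (r : ThT.Root) : Rt 4 := ⟨![r.1.1, r.1.2 0, r.1.2 1, r.1.2 2], by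
  have h := (ThT.isR_eq r.1).1 r.2
  unfold IsR
  rw [arr4, Fin.sum_univ_four]
  simp
  linarith⟩

/-- the inverse -/
def u4 (r : Rt 4) : ThT.Root := ⟨(r.1 0, ![r.1 1, r.1 2, r.1 3]), by
  have h := r.2
  unfold IsR at h
  rw [arr4, Fin.sum_univ_four] at h
  rw [ThT.isR_eq]
  simp
  linarith⟩

theorem t4_u4 (r : Rt 4) : t4 (u4 r) = r := Subtype.ext (by
  ext i
  fin_cases i <;> rfl)

theorem u4_t4 (r : ThT.Root) : u4 (t4 r) = r := Subtype.ext (Prod.ext rfl (by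
  ext i
  fin_cases i <;> rfl))

theorem t4_neg (r : ThT.Root) : t4 (-r) = ng (t4 r) := Subtype.ext (by
  ext i
  fin_cases i <;> rfl)

theorem t4_add (v w : ℤ × (Fin 3 → ℤ)) : (![(v + w).1, (v + w).2 0, (v + w).2 1, (v + w).2 2] : Fin 4 → ℤ) = ![v.1, v.2 0, v.2 1, v.2 2] + ![w.1, w.2 0, w.2 1, w.2 2] := by
  ext i
  fin_cases i <;> rfl

section
variable {K : Type*} [Field K] {G : Type*} [Group G]

theorem ep4 (r s : ThT.Root) : ((ThT.ep K r.1 s.1 : Kˣ) : K) = epX K (t4 r).1 (t4 s).1 := by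
  have h1 : blX (t4 r).1 (t4 s).1 = ThT.bl r.1 s.1 := by
    unfold blX
    rw [arr4, Fin.sum_univ_four, ThT.bl_eq]
    simp [t4]
    ring
  unfold epX
  rw [h1]
  change (((-1 : Kˣ) ^ ThT.bl r.1 s.1 : Kˣ) : K) = _
  split_ifs with h
  · rw [h.neg_one_zpow]
    rfl
  · rw [Int.not_even_iff_odd] at h
    rw [h.neg_one_zpow]
    rfl

/-- the root elements in the coordinates `(c; m)` -/
def x4 (y : Rt 4 → K → G) (r : ThT.Root) (a : K) : G := y (t4 r) a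

theorem stb4 {y : Rt 4 → K → G} (hy : StX K 4 y) : ThT.Stb K (x4 y) := by
  have h0 : ∀ r s : ThT.Root, (t4 r).1 + (t4 s).1 = ![(r.1 + s.1).1, (r.1 + s.1).2 0, (r.1 + s.1).2 1, (r.1 + s.1).2 2] := fun r s => (t4_add r.1 s.1).symm
  have hnn : ∀ (r : ThT.Root) (a : K), ThT.nn (x4 y) r a = nX y (t4 r) a := fun r a => by
    unfold ThT.nn x4 nX
    rw [t4_neg]
  have hhh : ∀ (r : ThT.Root) (a : K), ThT.hh (x4 y) r a = hX y (t4 r) a := fun r a => by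
    unfold ThT.hh hX
    rw [hnn, hnn]
  refine ⟨fun r a b => hy.add _ a b, fun r s t ht a b => ?_, fun r s h1 h a b => ?_, fun r a b ha hb => ?_, ?_⟩
  · rw [ep4]
    refine hy.sum _ _ _ ?_ a b
    rw [h0, ← ht]
    rfl
  · refine hy.comm _ _ (fun h2 => h1 ?_) (fun t h2 => h (u4 t) ?_) a b
    · rw [h0] at h2
      refine Prod.ext (congrFun h2 0) ?_
      ext i
      fin_cases i
      · exact congrFun h2 1
      · exact congrFun h2 2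
      · exact congrFun h2 3
    · rw [h0] at h2
      refine Prod.ext (congrFun h2 0) ?_
      ext i
      fin_cases i
      · exact congrFun h2 1
      · exact congrFun h2 2
      · exact congrFun h2 3
  · rw [hhh, hhh, hhh]
    exact hy.tor _ a b ha hb
  · rw [eq_top_iff, ← hy.gen]
    apply Subgroup.closure_mono
    rintro _ ⟨t, a, rfl⟩
    exact ⟨u4 t, a, by unfold x4; rw [t4_u4]⟩

theorem act4 {σ : Sym 4} (h : σ.1 0 = 0 ∧ σ.1 1 = 2 ∧ σ.1 2 = 3 ∧ σ.1 3 = 1) (r : ThT.Root) : act σ (t4 r) = t4 (ThT.sr r) := by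
  obtain ⟨h0, h1, h2, h3⟩ := h
  have e : ∀ {i j : Fin 4}, σ.1 i = j → σ.1.symm j = i := fun h => by rw [← h, Equiv.symm_apply_apply]
  apply Subtype.ext
  ext i
  change (t4 r).1 (σ.1.symm i) = _
  fin_cases i
  · change (t4 r).1 (σ.1.symm 0) = _
    rw [e h0]; rfl
  · change (t4 r).1 (σ.1.symm 1) = _
    rw [e h3]; rfl
  · change (t4 r).1 (σ.1.symm 2) = _
    rw [e h1]; rfl
  · change (t4 r).1 (σ.1.symm 3) = _
    rw [e h2]; rfl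

theorem act4' {σ : Sym 4} (h : σ.1 0 = 0 ∧ σ.1 1 = 3 ∧ σ.1 2 = 1 ∧ σ.1 3 = 2) (r : ThT.Root) : act σ (t4 r) = t4 (ThT.sr (ThT.sr r)) := by
  obtain ⟨h0, h1, h2, h3⟩ := h
  have e : ∀ {i j : Fin 4}, σ.1 i = j → σ.1.symm j = i := fun h => by rw [← h, Equiv.symm_apply_apply]
  apply Subtype.ext
  ext i
  change (t4 r).1 (σ.1.symm i) = _
  fin_cases i
  · change (t4 r).1 (σ.1.symm 0) = _
    rw [e h0]; rfl
  · change (t4 r).1 (σ.1.symm 1) = _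
    rw [e h2]; rfl
  · change (t4 r).1 (σ.1.symm 2) = _
    rw [e h3]; rfl
  · change (t4 r).1 (σ.1.symm 3) = _
    rw [e h1]; rfl

theorem t4_inj {r s : ThT.Root} (h : t4 r = t4 s) : r = s := by
  rw [← u4_t4 r, h, u4_t4]

theorem TX_four {y : Rt 4 → K → G} (hy : StX K 4 y) {σ : Sym 4} (h : orderOf σ.1 = 3) (τ : K →+* K) (hτ : ∀ a, τ (τ (τ a)) = a) :
    ∃ τ' : K →+* K, (∀ a, τ' (τ' (τ' a)) = a) ∧ ((∃ a, τ a ≠ a) → ∃ a, τ' a ≠ a) ∧ TX y σ τ = ThT.Hh (x4 y) τ' := by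
  have hS := stb4 hy
  have main : ∀ τ' : K →+* K, (∀ a, τ' (τ' (τ' a)) = a) → (∀ r : ThT.Root, act σ (t4 r) = t4 r ↔ ThT.sr r = r) → (∀ a, τ a = a ↔ τ' a = a) → (∀ r : ThT.Root, act σ (act σ (act σ (t4 r))) = t4 r) →
      (∀ (r : ThT.Root) a, ThT.sr r ≠ r → y (t4 r) a * y (act σ (t4 r)) (τ a) * y (act σ (act σ (t4 r))) (τ (τ a)) = ThT.yt (x4 y) τ' r a) → TX y σ τ = ThT.Hh (x4 y) τ' := by
    intro τ' h1 h2 h3 h4 h5
    have key : ∀ (r : ThT.Root) (a : K), (ThT.Ok τ' r a ↔ τ^[Function.minimalPeriod (act σ) (t4 r)] a = a) ∧ orb y σ τ (t4 r) a = ThT.yt (x4 y) τ' r a := by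
      intro r a
      by_cases h6 : ThT.sr r = r
      · obtain ⟨p1, p2⟩ := orb_one y σ τ ((h2 r).2 h6) a
        rw [p1, p2, ThT.yt_fix _ _ h6]
        refine ⟨⟨fun h7 => (h3 a).2 (h7 h6), fun h7 _ => (h3 a).1 h7⟩, rfl⟩
      · obtain ⟨p1, p2⟩ := orb_three y σ τ (fun h7 => h6 ((h2 r).1 h7)) (h4 r) a
        rw [p1, p2]
        exact ⟨⟨fun _ => hτ a, fun _ h7 => absurd h7 h6⟩, h5 r a h6⟩
    unfold TX ThT.Hh ThT.Sy
    refine congrArg Subgroup.closure (Set.ext fun g => ⟨?_, ?_⟩)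
    · rintro ⟨r, a, h6, rfl⟩
      obtain ⟨k1, k2⟩ := key (u4 r) a
      rw [t4_u4] at k1 k2
      exact ⟨u4 r, a, trivial, k1.2 h6, k2⟩
    · rintro ⟨r, a, -, h6, rfl⟩
      obtain ⟨k1, k2⟩ := key r a
      exact ⟨t4 r, a, k1.1 h6, k2.symm⟩
  rcases sym4 σ h with hs | hs
  · have a1 := act4 hs
    refine ⟨τ, hτ, id, main τ hτ (fun r => ?_) (fun a => Iff.rfl) (fun r => ?_) (fun r a h6 => ?_)⟩
    · rw [a1]
      exact ⟨fun h7 => t4_inj h7, fun h7 => by rw [h7]⟩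
    · rw [a1, a1, a1, ThT.sr_sr_sr]
    · rw [ThT.yt_mov _ _ h6, a1, a1]
      rfl
  · have a1 := act4' hs
    have hiff : ∀ a, τ a = a ↔ τ (τ a) = a := fun a => ⟨fun h1 => by rw [h1, h1], fun h1 => by
      have h2 := hτ a
      rw [h1] at h2
      exact h2⟩
    refine ⟨τ.comp τ, fun a => ?_, fun ⟨a, ha⟩ => ⟨a, fun h1 => ha ((hiff a).2 h1)⟩, main (τ.comp τ) (fun a => ?_) (fun r => ?_) (fun a => hiff a) (fun r => ?_) (fun r a h6 => ?_)⟩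
    · change τ (τ (τ (τ (τ (τ a))))) = a
      rw [hτ, hτ]
    · change τ (τ (τ (τ (τ (τ a))))) = a
      rw [hτ, hτ]
    · rw [a1]
      refine ⟨fun h7 => ?_, fun h7 => by rw [h7, h7]⟩
      have h8 := t4_inj h7
      have h9 := ThT.sr_sr_sr r
      rw [h8] at h9
      exact h9
    · rw [a1, a1, a1, ThT.sr_sr_sr, ThT.sr_sr_sr]
    · rw [ThT.yt_mov _ _ h6, a1, a1, ThT.sr_sr_sr]
      obtain ⟨b1, b2, b3⟩ := ThT.bf_sr_sr h6
      change x4 y r a * x4 y (ThT.sr (ThT.sr r)) (τ a) * x4 y (ThT.sr r) (τ (τ a)) = x4 y r a * x4 y (ThT.sr r) (τ (τ a)) * x4 y (ThT.sr (ThT.sr r)) (τ (τ (τ (τ a))))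
      rw [hτ, mul_assoc, mul_assoc, hS.commute b3.ge (τ (τ a)) (τ a)]

/-- `n = 4` -/
theorem main4 [Finite K] {y : Rt 4 → K → G} (hy : StX K 4 y) {σ : Sym 4} (h : orderOf σ.1 = 3) (τ : K →+* K) (hτ : ∀ a, τ (τ (τ a)) = a) (hK : (∃ a, τ a ≠ a) ∨ 2 < Nat.card K) :
    ∃ g : TX y σ τ ⧸ Subgroup.center (TX y σ τ), ∀ z : TX y σ τ ⧸ Subgroup.center (TX y σ τ), ∃ a b, IsConj g a ∧ IsConj g b ∧ a * b = z := by
  obtain ⟨τ', h1, h2, h3⟩ := TX_four hy h τ hτ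
  rw [h3]
  exact Pool.Agent.ThT2.quot_good (Pool.Agent.ThT2.small_all (stb4 hy) h1 (hK.imp_left h2))

end

end ThX
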