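import Pool.Agent.ThX.Six
import Pool.Agent.ThX.Four
import Pool.Agent.ThK.Fin
import Pool.Agent.ThR.Fin6
import Pool.Agent.ThF.Two
import Pool.Agent.ThW.Six

/-! # Thompson's conjecture for all groups `T` -/

namespace ThX

section
variable {K : Type*} [Field K] {n : ℕ} {G : Type*} [Group G]

/-- the conclusion -/
def Th (S : Type*) [Group S] : Prop := ∃ g : S, ∀ z : S, ∃ a b, IsConj g a ∧ IsConj g b ∧ a * b = z

theorem stb_top {x : ThE.Root n → K → G} (h : ThK.Stb K n x) : ThK.Stb K n (fun r a => (⟨x r a, trivial⟩ : (⊤ : Subgroup G))) := by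
  refine ⟨fun r a b => Subtype.ext (h.add r a b), fun r s t h1 a b => Subtype.ext (h.sum r s t h1 a b), fun r s h0 h1 a b => Subtype.ext (h.comm r s h0 h1 a b), fun r a b ha hb => Subtype.ext (h.tor r a b ha hb), ?_⟩
  apply Subgroup.map_injective (⊤ : Subgroup G).subtype_injective
  rw [← MonoidHom.range_eq_map, Subgroup.range_subtype, MonoidHom.map_closure]
  refine Eq.trans (congrArg Subgroup.closure (Set.ext fun g => ⟨?_, ?_⟩)) h.gen
  · rintro ⟨_, ⟨r, a, rfl⟩, rfl⟩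
    exact ⟨r, a, rfl⟩
  · rintro ⟨r, a, rfl⟩
    exact ⟨_, ⟨r, a, rfl⟩, rfl⟩

theorem act_one {σ : Sym n} (h : σ.1 = 1) (r : Rt n) : act σ r = r := Subtype.ext (by
  change (fun i => r.1 (σ.1.symm i)) = r.1
  rw [h]
  rfl)

theorem TX_one {y : Rt n → K → G} (hy : StX K n y) {σ : Sym n} (h : σ.1 = 1) {τ : K →+* K} (hτ : ∀ a, τ a = a) : TX y σ τ = ⊤ := by
  rw [eq_top_iff, ← hy.gen]
  unfold TX
  apply Subgroup.closure_mono
  rintro _ ⟨r, a, rfl⟩
  obtain ⟨p1, p2⟩ := orb_one y σ τ (act_one h r) a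
  exact ⟨r, a, by rw [p1]; exact hτ a, p2.symm⟩

theorem sym0 {n : ℕ} (hn : n = 7 ∨ n = 8) (σ : Sym n) : σ.1 = 1 := by
  rcases hn with rfl | rfl
  · have h0 : σ.1 0 = 0 := by
      by_contra h
      have h1 : σ.1.symm 0 ≠ 0 := fun h2 => h (by rw [← h2, Equiv.apply_symm_apply, h2])
      obtain ⟨i, hi⟩ := (by decide : ∀ j : Fin 7, j ≠ 0 → ∃ i, Arrow i j) _ h1
      have h2 := (σ.2 i _).2 hi
      rw [Equiv.apply_symm_apply] at h2
      exact (by decide : ∀ i : Fin 7, ¬ Arrow i 0) _ h2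
    have hA : ∀ i j : Fin 7, Arrow i j → Arrow (σ.1 i) (σ.1 j) := fun i j h => (σ.2 i j).2 h
    have h01 := hA 0 1 (by decide)
    have h02 := hA 0 2 (by decide)
    have h03 := hA 0 3 (by decide)
    have h24 := hA 2 4 (by decide)
    have h35 := hA 3 5 (by decide)
    have h56 := hA 5 6 (by decide)
    rw [h0] at h01 h02 h03
    obtain ⟨h3, h5, h6⟩ := (by decide : ∀ a b c : Fin 7, Arrow 0 a → Arrow a b → Arrow b c → a = 3 ∧ b = 5 ∧ c = 6) _ _ _ h03 h35 h56
    have h23 : σ.1 2 ≠ 3 := fun h => (by decide : (2 : Fin 7) ≠ 3) (σ.1.injective (h.trans h3.symm))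
    obtain ⟨h2, h4⟩ := (by decide : ∀ a b : Fin 7, Arrow 0 a → Arrow a b → a ≠ 3 → a = 2 ∧ b = 4) _ _ h02 h24 h23
    have h13 : σ.1 1 ≠ 3 := fun h => (by decide : (1 : Fin 7) ≠ 3) (σ.1.injective (h.trans h3.symm))
    have h12 : σ.1 1 ≠ 2 := fun h => (by decide : (1 : Fin 7) ≠ 2) (σ.1.injective (h.trans h2.symm))
    have h1 := (by decide : ∀ a : Fin 7, Arrow 0 a → a ≠ 3 → a ≠ 2 → a = 1) _ h01 h13 h12
    apply Equiv.ext
    intro i
    fin_cases i
    · exact h0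
    · exact h1
    · exact h2
    · exact h3
    · exact h4
    · exact h5
    · exact h6
  · have h0 : σ.1 0 = 0 := by
      by_contra h
      have h1 : σ.1.symm 0 ≠ 0 := fun h2 => h (by rw [← h2, Equiv.apply_symm_apply, h2])
      obtain ⟨i, hi⟩ := (by decide : ∀ j : Fin 8, j ≠ 0 → ∃ i, Arrow i j) _ h1
      have h2 := (σ.2 i _).2 hi
      rw [Equiv.apply_symm_apply] at h2
      exact (by decide : ∀ i : Fin 8, ¬ Arrow i 0) _ h2
    have hA : ∀ i j : Fin 8, Arrow i j → Arrow (σ.1 i) (σ.1 j) := fun i j h => (σ.2 i j).2 h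
    have h01 := hA 0 1 (by decide)
    have h02 := hA 0 2 (by decide)
    have h03 := hA 0 3 (by decide)
    have h24 := hA 2 4 (by decide)
    have h35 := hA 3 5 (by decide)
    have h56 := hA 5 6 (by decide)
    have h67 := hA 6 7 (by decide)
    rw [h0] at h01 h02 h03
    obtain ⟨h3, h5, h6⟩ := (by decide : ∀ a b c : Fin 8, Arrow 0 a → Arrow a b → Arrow b c → a = 3 ∧ b = 5 ∧ c = 6) _ _ _ h03 h35 h56
    rw [h6] at h67
    have h7 := (by decide : ∀ a : Fin 8, Arrow 6 a → a = 7) _ h67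
    have h23 : σ.1 2 ≠ 3 := fun h => (by decide : (2 : Fin 8) ≠ 3) (σ.1.injective (h.trans h3.symm))
    obtain ⟨h2, h4⟩ := (by decide : ∀ a b : Fin 8, Arrow 0 a → Arrow a b → a ≠ 3 → a = 2 ∧ b = 4) _ _ h02 h24 h23
    have h13 : σ.1 1 ≠ 3 := fun h => (by decide : (1 : Fin 8) ≠ 3) (σ.1.injective (h.trans h3.symm))
    have h12 : σ.1 1 ≠ 2 := fun h => (by decide : (1 : Fin 8) ≠ 2) (σ.1.injective (h.trans h2.symm))
    have h1 := (by decide : ∀ a : Fin 8, Arrow 0 a → a ≠ 3 → a ≠ 2 → a = 1) _ h01 h13 h12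
    apply Equiv.ext
    intro i
    fin_cases i
    · exact h0
    · exact h1
    · exact h2
    · exact h3
    · exact h4
    · exact h5
    · exact h6
    · exact h7

theorem order6 {σ : Sym 6} (h : σ.1 0 = 0 ∧ σ.1 1 = 1 ∧ σ.1 2 = 3 ∧ σ.1 3 = 2 ∧ σ.1 4 = 5 ∧ σ.1 5 = 4) : orderOf σ.1 = 2 := by
  obtain ⟨h0, h1, h2, h3, h4, h5⟩ := h
  apply orderOf_eq_prime
  · rw [pow_two]
    apply Equiv.ext
    intro i
    rw [Equiv.Perm.mul_apply]
    fin_cases i
    · exact (congrArg σ.1 h0).trans h0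
    · exact (congrArg σ.1 h1).trans h1
    · exact (congrArg σ.1 h2).trans h3
    · exact (congrArg σ.1 h3).trans h2
    · exact (congrArg σ.1 h4).trans h5
    · exact (congrArg σ.1 h5).trans h4
  · intro h6
    rw [h6] at h2
    exact absurd h2 (by decide)

theorem exists_unit [Finite K] (h : 2 < Nat.card K) : ∃ d : K, d ≠ 0 ∧ d ≠ 1 := by
  by_contra hd
  push Not at hd
  have hf := Fintype.ofFinite K
  classical
  have h1 : (Finset.univ : Finset K) ⊆ {0, 1} := by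
    intro d _
    by_cases h0 : d = 0
    · simp [h0]
    · simp [hd d h0]
  have h2 := Finset.card_le_card h1
  rw [Finset.card_univ, ← Nat.card_eq_fintype_card] at h2
  have h3 := Finset.card_le_two (a := (0 : K)) (b := 1)
  omega

theorem two [Finite K] (h : ¬ 2 < Nat.card K) (a : K) : a = 0 ∨ a = 1 := by
  by_contra ha
  push Not at ha
  have h1 := Fintype.ofFinite K
  classical
  have h2 : ({0, 1, a} : Finset K).card ≤ Fintype.card K := Finset.card_le_univ _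
  rw [Finset.card_insert_of_notMem (by simp [ha.1.symm]), Finset.card_insert_of_notMem (by simp [ha.2.symm]), Finset.card_singleton, ← Nat.card_eq_fintype_card] at h2
  omega

/-- THE MAIN THEOREM -/
theorem main [Finite K] (hn : n = 4 ∨ n = 6 ∨ n = 7 ∨ n = 8) (σ : Sym n) (τ : K →+* K) (hτ : ∀ a, τ^[orderOf σ.1] a = a) (h4 : n = 4 → orderOf σ.1 = 3 ∧ ((∃ a, τ a ≠ a) ∨ 2 < Nat.card K))
    {y : Rt n → K → G} (hy : StX K n y) : Th (TX y σ τ ⧸ Subgroup.center (TX y σ τ)) := by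
  have h1 : σ.1 = 1 → ∀ a, τ a = a := fun h a => by
    have h2 := hτ a
    rw [h, orderOf_one] at h2
    exact h2
  rcases hn with rfl | rfl | hn
  · obtain ⟨h2, h3⟩ := h4 rfl
    rw [h2] at hτ
    exact main4 hy h2 τ hτ h3
  · rcases sym6 σ with h2 | h2
    · rw [TX_one hy h2 (h1 h2)]
      apply ThK.quot_main
      by_cases h3 : 2 < Nat.card K
      · obtain ⟨b, h5, c, h6⟩ := Pool.Agent.ThR.main6 (exists_unit h3) (stb_top (stb6 hy))
        exact ⟨b, h5, 1, c, by rw [h6]; group⟩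
      · exact Pool.Agent.ThW.main6 (two h3) (stb_top (stb6 hy))
    · rw [order6 h2] at hτ
      rw [TX_six y h2 τ hτ]
      exact Pool.Agent.ThF.twisted_all (stb6 hy) hτ
  · rw [TX_one hy (sym0 hn σ) (h1 (sym0 hn σ))]
    apply ThK.quot_main
    rcases hn with rfl | rfl
    · exact ThK.main78' (Or.inl rfl) (stb_top (stb7 hy))
    · exact ThK.main78' (Or.inr rfl) (stb_top (stb8 hy))

end

end ThX
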