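import Pool.Agent.ThX.Tx

/-! # `n = 6`: `F_4(K)` and `²E_6(K)` -/

namespace ThX
open ThE ThK

/-- the diagram of type `E_6` has only one automorphism besides the identity -/
theorem sym6 (σ : Sym 6) : σ.1 = 1 ∨ (σ.1 0 = 0 ∧ σ.1 1 = 1 ∧ σ.1 2 = 3 ∧ σ.1 3 = 2 ∧ σ.1 4 = 5 ∧ σ.1 5 = 4) := by
  have h0 : σ.1 0 = 0 := by
    by_contra h
    have h1 : σ.1.symm 0 ≠ 0 := fun h2 => h (by rw [← h2, Equiv.apply_symm_apply, h2])
    obtain ⟨i, hi⟩ := (by decide : ∀ j : Fin 6, j ≠ 0 → ∃ i, Arrow i j) _ h1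
    have h2 := (σ.2 i _).2 hi
    rw [Equiv.apply_symm_apply] at h2
    exact (by decide : ∀ i : Fin 6, ¬ Arrow i 0) _ h2
  have hA : ∀ i j : Fin 6, Arrow i j → Arrow (σ.1 i) (σ.1 j) := fun i j h => (σ.2 i j).2 h
  have h01 := hA 0 1 (by decide)
  have h02 := hA 0 2 (by decide)
  have h03 := hA 0 3 (by decide)
  have h24 := hA 2 4 (by decide)
  have h35 := hA 3 5 (by decide)
  rw [h0] at h01 h02 h03
  have key : ∀ a b : Fin 6, Arrow 0 a → Arrow a b → (a = 2 ∧ b = 4) ∨ (a = 3 ∧ b = 5) := by decide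
  have key1 : ∀ a : Fin 6, Arrow 0 a → a = 1 ∨ a = 2 ∨ a = 3 := by decide
  have hi : ∀ {i j : Fin 6}, i ≠ j → σ.1 i ≠ σ.1 j := fun h h' => h (σ.1.injective h')
  have h12 : σ.1 1 ≠ σ.1 2 := hi (by decide)
  have h13 : σ.1 1 ≠ σ.1 3 := hi (by decide)
  have h23 : σ.1 2 ≠ σ.1 3 := hi (by decide)
  rcases key _ _ h02 h24 with ⟨h2, h4⟩ | ⟨h2, h4⟩ <;> rcases key _ _ h03 h35 with ⟨h3, h5⟩ | ⟨h3, h5⟩
  · exact absurd (h2.trans h3.symm) h23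
  · left
    have h1 : σ.1 1 = 1 := by
      rcases key1 _ h01 with h | h | h
      · exact h
      · exact absurd (h.trans h2.symm) h12
      · exact absurd (h.trans h3.symm) h13
    ext i
    fin_cases i <;> simp [h0, h1, h2, h3, h4, h5]
  · right
    have h1 : σ.1 1 = 1 := by
      rcases key1 _ h01 with h | h | h
      · exact h
      · exact absurd (h.trans h3.symm) h13
      · exact absurd (h.trans h2.symm) h12
    exact ⟨h0, h1, h2, h3, h4, h5⟩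
  · exact absurd (h2.trans h3.symm) h23

/-- the flip of the coordinates -/
def fl (v : Fin 6 → ℤ) : Fin 6 → ℤ := ![v 0, v 1, v 3, v 2, v 5, v 4]

theorem act6 {σ : Sym 6} (h : σ.1 0 = 0 ∧ σ.1 1 = 1 ∧ σ.1 2 = 3 ∧ σ.1 3 = 2 ∧ σ.1 4 = 5 ∧ σ.1 5 = 4) (r : Rt 6) : (act σ r).1 = fl r.1 := by
  obtain ⟨h0, h1, h2, h3, h4, h5⟩ := h
  have e : ∀ {i j : Fin 6}, σ.1 i = j → σ.1.symm j = i := fun h => by rw [← h, Equiv.symm_apply_apply]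
  ext i
  change r.1 (σ.1.symm i) = _
  fin_cases i
  · change r.1 (σ.1.symm 0) = _
    rw [e h0]; rfl
  · change r.1 (σ.1.symm 1) = _
    rw [e h1]; rfl
  · change r.1 (σ.1.symm 2) = _
    rw [e h3]; rfl
  · change r.1 (σ.1.symm 3) = _
    rw [e h2]; rfl
  · change r.1 (σ.1.symm 4) = _
    rw [e h5]; rfl
  · change r.1 (σ.1.symm 5) = _
    rw [e h4]; rfl

theorem f6_sr (r : Root 6) : f6 (Pool.Agent.ThF.sr r).1 = fl (f6 r.1) := by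
  have h := r.2.1
  simp only [Fin.sum_univ_six] at h
  ext i
  rw [Pool.Agent.ThF.sr_val]
  fin_cases i <;> simp [f6, fl, Pool.Agent.ThF.sg, Fin.rev] <;> linarith

section
variable {K : Type*} [Field K] {G : Type*} [Group G]

theorem et_sgn (v : Vec 6) : Pool.Agent.ThF.et K v = sgn K ((1 + v.1) * (1 + ht v)) := by
  unfold sgn
  change (((-1 : Kˣ) ^ ((1 + v.1) * (1 + ht v)) : Kˣ) : K) = _
  split_ifs with h
  · rw [h.neg_one_zpow]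
    rfl
  · rw [Int.not_even_iff_odd] at h
    rw [h.neg_one_zpow]
    rfl

theorem par6 (v : Fin 6 → ℤ) (h : v 0 ^ 2 + v 1 ^ 2 + v 2 ^ 2 + v 3 ^ 2 + v 4 ^ 2 + v 5 ^ 2 - (v 0 * v 1 + v 0 * v 2 + v 0 * v 3 + v 2 * v 4 + v 3 * v 5) = 1) :
    Even (C6 (fl v) + (1 + v 1) * (1 + (v 0 + v 1 + v 2 + v 3 + v 4 + v 5)) + C6 v) := by
  have h1 : ¬ Even (v 0 ^ 2 + v 1 ^ 2 + v 2 ^ 2 + v 3 ^ 2 + v 4 ^ 2 + v 5 ^ 2 - (v 0 * v 1 + v 0 * v 2 + v 0 * v 3 + v 2 * v 4 + v 3 * v 5)) := by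
    rw [h]
    decide
  change Even ((v 0 * v 1 + v 0 * v 3 + v 1 * v 3 + v 1 * v 5 + v 3 * v 5) + (1 + v 1) * (1 + (v 0 + v 1 + v 2 + v 3 + v 4 + v 5)) + (v 0 * v 1 + v 0 * v 2 + v 1 * v 2 + v 1 * v 4 + v 2 * v 4))
  by_cases e0 : Even (v 0) <;> by_cases e1 : Even (v 1) <;> by_cases e2 : Even (v 2) <;> by_cases e3 : Even (v 3) <;> by_cases e4 : Even (v 4) <;> by_cases e5 : Even (v 5) <;>
    simp [Int.even_add, Int.even_sub, Int.even_mul, Int.even_pow, e0, e1, e2, e3, e4, e5] at h1 ⊢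

theorem ht_f6 (r : Root 6) : f6 r.1 0 + f6 r.1 1 + f6 r.1 2 + f6 r.1 3 + f6 r.1 4 + f6 r.1 5 = ht r.1 := by
  have h := r.2.1
  simp only [Fin.sum_univ_six] at h
  unfold ht
  simp [Fin.sum_univ_six, f6]
  linarith

theorem sgn6 (r : Root 6) : sgn K (C6 (f6 (Pool.Agent.ThF.sr r).1)) * Pool.Agent.ThF.et K r.1 * sgn K (C6 (f6 r.1)) = 1 := by
  rw [et_sgn, ← sgn_add, ← sgn_add, f6_sr, ← ht_f6]
  have h := par6 (f6 r.1) ((isR6 _).1 (hf6 r))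
  unfold sgn
  exact if_pos h

/-- the root elements in the coordinates `(d; m)` -/
def x6 (y : Rt 6 → K → G) (r : Root 6) (a : K) : G := y ⟨f6 r.1, hf6 r⟩ (sgn K (C6 (f6 r.1)) * a)

theorem sgn_map (τ : K →+* K) (k : ℤ) : τ (sgn K k) = sgn K k := by
  rcases sgn_cases (K := K) k with h | h <;> rw [h]
  · exact map_one τ
  · rw [map_neg, map_one]

theorem TX_six (y : Rt 6 → K → G) {σ : Sym 6} (h : σ.1 0 = 0 ∧ σ.1 1 = 1 ∧ σ.1 2 = 3 ∧ σ.1 3 = 2 ∧ σ.1 4 = 5 ∧ σ.1 5 = 4) (τ : K →+* K) (hτ : ∀ a, τ (τ a) = a) :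
    TX y σ τ = Pool.Agent.ThF.Hh (x6 y) τ := by
  have e1 : ∀ r : Root 6, (⟨f6 (Pool.Agent.ThF.sr r).1, hf6 (Pool.Agent.ThF.sr r)⟩ : Rt 6) = act σ ⟨f6 r.1, hf6 r⟩ := fun r => Subtype.ext (by
    rw [act6 h]
    exact f6_sr r)
  have e2 : ∀ r : Root 6, Pool.Agent.ThF.sr r = r ↔ act σ ⟨f6 r.1, hf6 r⟩ = ⟨f6 r.1, hf6 r⟩ := by
    intro r
    rw [← e1]
    constructor
    · intro h1
      exact Subtype.ext (by change f6 (Pool.Agent.ThF.sr r).1 = f6 r.1; rw [h1])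
    · intro h1
      have h2 : f6 (Pool.Agent.ThF.sr r).1 = f6 r.1 := congrArg Subtype.val h1
      exact Subtype.ext (by rw [← gf6 (Pool.Agent.ThF.sr r), h2, gf6])
  have e3 : ∀ r : Rt 6, act σ (act σ r) = r := fun r => Subtype.ext (by
    rw [act6 h, act6 h]
    ext i
    fin_cases i <;> rfl)
  have key : ∀ (r : Root 6) (a : K), Pool.Agent.ThF.Ok τ r a → τ^[Function.minimalPeriod (act σ) ⟨f6 r.1, hf6 r⟩] (sgn K (C6 (f6 r.1)) * a) = sgn K (C6 (f6 r.1)) * a ∧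
      Pool.Agent.ThF.yt (x6 y) τ r a = orb y σ τ ⟨f6 r.1, hf6 r⟩ (sgn K (C6 (f6 r.1)) * a) := by
    intro r a ha
    by_cases h1 : Pool.Agent.ThF.sr r = r
    · obtain ⟨p1, p2⟩ := orb_one y σ τ ((e2 r).1 h1) (sgn K (C6 (f6 r.1)) * a)
      rw [Pool.Agent.ThF.yt_fix _ _ h1, p1, p2]
      refine ⟨?_, rfl⟩
      change τ (sgn K (C6 (f6 r.1)) * a) = _
      rw [map_mul, sgn_map, ha h1]
    · obtain ⟨p1, p2⟩ := orb_two y σ τ (fun h2 => h1 ((e2 r).2 h2)) (e3 _) (sgn K (C6 (f6 r.1)) * a)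
      rw [Pool.Agent.ThF.yt_mov _ _ h1, p1, p2]
      refine ⟨?_, ?_⟩
      · change τ (τ (sgn K (C6 (f6 r.1)) * a)) = _
        rw [hτ]
      · rw [← e1, map_mul, sgn_map]
        change y ⟨f6 r.1, hf6 r⟩ (sgn K (C6 (f6 r.1)) * a) * y ⟨f6 (Pool.Agent.ThF.sr r).1, _⟩ (sgn K (C6 (f6 (Pool.Agent.ThF.sr r).1)) * (Pool.Agent.ThF.et K r.1 * τ a)) = _
        have h2 : sgn K (C6 (f6 (Pool.Agent.ThF.sr r).1)) * (Pool.Agent.ThF.et K r.1 * τ a) = sgn K (C6 (f6 r.1)) * τ a := by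
          have h3 := sgn6 (K := K) r
          have h4 := sgn_sq (K := K) (C6 (f6 r.1))
          linear_combination (sgn K (C6 (f6 r.1)) * τ a) * h3 - (sgn K (C6 (f6 (Pool.Agent.ThF.sr r).1)) * Pool.Agent.ThF.et K r.1 * τ a) * h4
        rw [h2]
  unfold TX Pool.Agent.ThF.Hh Pool.Agent.ThF.Sy
  refine congrArg Subgroup.closure (Set.ext fun g => ⟨?_, ?_⟩)
  · rintro ⟨r, a, h1, rfl⟩
    have h2 : (⟨f6 (g6 r.1), hf6 ⟨g6 r.1, hg6 r⟩⟩ : Rt 6) = r := Subtype.ext (fg6 r.1)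
    have h3 : sgn K (C6 (f6 (g6 r.1))) * (sgn K (C6 (f6 (g6 r.1))) * a) = a := by rw [← mul_assoc, sgn_sq, one_mul]
    have h4 : Pool.Agent.ThF.Ok τ ⟨g6 r.1, hg6 r⟩ (sgn K (C6 (f6 (g6 r.1))) * a) := by
      intro h5
      have h6 := (e2 _).1 h5
      rw [map_mul, sgn_map]
      have h7 : act σ r = r := by
        have h8 : act σ ⟨f6 (g6 r.1), hf6 ⟨g6 r.1, hg6 r⟩⟩ = ⟨f6 (g6 r.1), hf6 ⟨g6 r.1, hg6 r⟩⟩ := h6
        rw [h2] at h8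
        exact h8
      rw [Function.minimalPeriod_eq_one_iff_isFixedPt.2 h7] at h1
      have h9 : τ a = a := h1
      rw [h9]
    refine ⟨⟨g6 r.1, hg6 r⟩, sgn K (C6 (f6 (g6 r.1))) * a, trivial, h4, ?_⟩
    rw [(key _ _ h4).2]
    change orb y σ τ r a = orb y σ τ ⟨f6 (g6 r.1), hf6 ⟨g6 r.1, hg6 r⟩⟩ (sgn K (C6 (f6 (g6 r.1))) * (sgn K (C6 (f6 (g6 r.1))) * a))
    rw [h2, h3]
  · rintro ⟨r, a, -, h1, rfl⟩
    obtain ⟨k1, k2⟩ := key r a h1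
    exact ⟨_, _, k1, k2⟩

end

end ThX
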