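import Pool.Agent.ThX.En
import Pool.Agent.ThF.Gin

/-! # The groups `T` in tree coordinates -/

namespace ThX
open ThE ThK

/-- the automorphisms of the diagram -/
abbrev Sym (n : ℕ) : Type := {σ : Equiv.Perm (Fin n) // ∀ i j, Arrow (σ i) (σ j) ↔ Arrow i j}

theorem isR_act {n : ℕ} (σ : Sym n) {v : Fin n → ℤ} (h : IsR v) : IsR fun i => v (σ.1.symm i) := by
  unfold IsR at h ⊢
  rw [← Equiv.sum_comp σ.1, ← Equiv.sum_comp σ.1 (fun i => ∑ j, if Arrow i j then v (σ.1.symm i) * v (σ.1.symm j) else 0)]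
  have h1 : ∀ i, (∑ j, if Arrow (σ.1 i) j then v (σ.1.symm (σ.1 i)) * v (σ.1.symm j) else 0) = ∑ j, if Arrow i j then v i * v j else 0 := by
    intro i
    rw [← Equiv.sum_comp σ.1]
    refine Finset.sum_congr rfl fun j _ => ?_
    rw [Equiv.symm_apply_apply, Equiv.symm_apply_apply]
    exact if_congr (σ.2 i j) rfl rfl
  rw [Finset.sum_congr rfl fun i _ => h1 i]
  simp only [Equiv.symm_apply_apply]
  exact h

/-- the action on the roots -/
def act {n : ℕ} (σ : Sym n) (r : Rt n) : Rt n := ⟨fun i => r.1 (σ.1.symm i), isR_act σ r.2⟩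

section
variable {K : Type*} [Field K] {n : ℕ} {G : Type*} [Group G]

/-- the product over the orbit -/
noncomputable def orb (y : Rt n → K → G) (σ : Sym n) (τ : K →+* K) (r : Rt n) (a : K) : G := ((List.range (Function.minimalPeriod (act σ) r)).map fun i => y ((act σ)^[i] r) (τ^[i] a)).prod

/-- the subgroup `T` -/
def TX (y : Rt n → K → G) (σ : Sym n) (τ : K →+* K) : Subgroup G := Subgroup.closure {g | ∃ (r : Rt n) (a : K), τ^[Function.minimalPeriod (act σ) r] a = a ∧ g = orb y σ τ r a}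

theorem orb_one (y : Rt n → K → G) (σ : Sym n) (τ : K →+* K) {r : Rt n} (h : act σ r = r) (a : K) : Function.minimalPeriod (act σ) r = 1 ∧ orb y σ τ r a = y r a := by
  have h1 : Function.minimalPeriod (act σ) r = 1 := Function.minimalPeriod_eq_one_iff_isFixedPt.2 h
  refine ⟨h1, ?_⟩
  unfold orb
  rw [h1]
  simp

theorem orb_two (y : Rt n → K → G) (σ : Sym n) (τ : K →+* K) {r : Rt n} (h : act σ r ≠ r) (h2 : act σ (act σ r) = r) (a : K) :
    Function.minimalPeriod (act σ) r = 2 ∧ orb y σ τ r a = y r a * y (act σ r) (τ a) := by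
  have h1 : Function.minimalPeriod (act σ) r = 2 := by
    have h3 : Function.minimalPeriod (act σ) r ∣ 2 := Function.IsPeriodicPt.minimalPeriod_dvd h2
    rcases (Nat.dvd_prime Nat.prime_two).1 h3 with h4 | h4
    · exact absurd (Function.minimalPeriod_eq_one_iff_isFixedPt.1 h4) h
    · exact h4
  refine ⟨h1, ?_⟩
  unfold orb
  rw [h1]
  simp [List.range_succ]

theorem orb_three (y : Rt n → K → G) (σ : Sym n) (τ : K →+* K) {r : Rt n} (h : act σ r ≠ r) (h3 : act σ (act σ (act σ r)) = r) (a : K) :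
    Function.minimalPeriod (act σ) r = 3 ∧ orb y σ τ r a = y r a * y (act σ r) (τ a) * y (act σ (act σ r)) (τ (τ a)) := by
  have h1 : Function.minimalPeriod (act σ) r = 3 := by
    have h4 : Function.minimalPeriod (act σ) r ∣ 3 := Function.IsPeriodicPt.minimalPeriod_dvd h3
    rcases (Nat.dvd_prime Nat.prime_three).1 h4 with h5 | h5
    · exact absurd (Function.minimalPeriod_eq_one_iff_isFixedPt.1 h5) h
    · exact h5
  refine ⟨h1, ?_⟩
  unfold orb
  rw [h1]
  simp [List.range_succ, mul_assoc]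

end

end ThX
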